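import Pool.Agent.W203.SP.Stm
import Pool.Agent.H153R4.Four

/-!
# Fourth power of a one dimensional Fourier transform
-/

set_option autoImplicit false

namespace Pool.Agent.W305.SP

open Complex MeasureTheory Set Pool.Agent.W203.SP
open scoped ENNReal FourierTransform ComplexConjugate Convolution RealInnerProductSpace

section

variable {a b B : ℝ} {g : ℝ → ℂ}

theorem bs_int (hm : Measurable g) (hB : ∀ r, ‖g r‖ ≤ B) (hs : ∀ r, r ∉ Icc a b → g r = 0) :
    Integrable g := by
  have h1 : (Icc a b).indicator g = g := by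
    ext r
    by_cases hr : r ∈ Icc a b
    · rw [indicator_of_mem hr]
    · rw [indicator_of_notMem hr, hs r hr]
  rw [← h1, integrable_indicator_iff measurableSet_Icc]
  exact IntegrableOn.of_bound (by rw [Real.volume_Icc]; exact ENNReal.ofReal_lt_top)
    hm.aestronglyMeasurable B (ae_of_all _ hB)

theorem neg_int (hg : Integrable g) : Integrable (fun t => conj (g (-t))) := by
  have h := hg.comp_neg
  refine ⟨(continuous_conj.comp_aestronglyMeasurable h.1), ?_⟩
  have h2 := h.2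
  exact h2.congr' (ae_of_all _ fun t => (RCLike.norm_conj _).symm)

/-- autocorrelation -/
noncomputable def BR (g : ℝ → ℂ) (h : ℝ) : ℂ := ∫ r, g (r + h) * conj (g r)

theorem conj_fr (g : ℝ → ℂ) (ξ : ℝ) : 𝓕 (fun t => conj (g (-t))) ξ = conj (𝓕 g ξ) := by
  rw [Real.fourier_eq', Real.fourier_eq']
  rw [← integral_conj, ← integral_neg_eq_self]
  apply integral_congr_ae
  refine ae_of_all _ fun s => ?_
  simp only [smul_eq_mul, map_mul, neg_neg]
  congr 1
  rw [← Complex.exp_conj]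
  congr 1
  simp only [map_mul, Complex.conj_ofReal, Complex.conj_I, inner_neg_left]
  push_cast
  ring

theorem BR_conv (g : ℝ → ℂ) :
    ((fun t => conj (g (-t))) ⋆[ContinuousLinearMap.mul ℂ ℂ] g) = BR g := by
  ext h
  unfold BR convolution
  rw [← integral_neg_eq_self]
  apply integral_congr_ae
  refine ae_of_all _ fun s => ?_
  simp only [neg_neg, ContinuousLinearMap.mul_apply', sub_neg_eq_add]
  rw [add_comm h s, mul_comm]

theorem F_BR (hg : Integrable g) (ξ : ℝ) : 𝓕 (BR g) ξ = conj (𝓕 g ξ) * 𝓕 g ξ := by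
  rw [← BR_conv, Real.fourier_mul_convolution_eq (neg_int hg) hg, conj_fr]

theorem BR_int (hg : Integrable g) : Integrable (BR g) := by
  rw [← BR_conv]
  exact (neg_int hg).integrable_convolution (ContinuousLinearMap.mul ℂ ℂ) hg

theorem BR_bd (hg : Integrable g) (hB : ∀ r, ‖g r‖ ≤ B) (h : ℝ) :
    ‖BR g h‖ ≤ B * ∫ r, ‖g r‖ := by
  unfold BR
  refine (norm_integral_le_of_norm_le (hg.norm.const_mul B) (ae_of_all _ fun r => ?_)).trans ?_
  · rw [norm_mul, RCLike.norm_conj]
    exact mul_le_mul_of_nonneg_right (hB _) (norm_nonneg _)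
  · rw [integral_const_mul]

theorem BR_memLp (hg : Integrable g) (hB : ∀ r, ‖g r‖ ≤ B) : MemLp (BR g) 2 := by
  have h1 := BR_int hg
  rw [memLp_two_iff_integrable_sq_norm h1.aestronglyMeasurable]
  refine (h1.norm.const_mul (B * ∫ r, ‖g r‖)).mono
    (h1.aestronglyMeasurable.norm.pow 2) (ae_of_all _ fun h => ?_)
  have h0 : 0 ≤ B * ∫ r, ‖g r‖ := (norm_nonneg _).trans (BR_bd hg hB h)
  rw [Real.norm_of_nonneg (by positivity), norm_mul, norm_norm, sq, Real.norm_of_nonneg h0]
  exact mul_le_mul_of_nonneg_right (BR_bd hg hB h) (norm_nonneg _)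

theorem fourR (hg : Integrable g) (hB : ∀ r, ‖g r‖ ≤ B) :
    ∫⁻ ξ : ℝ, ‖𝓕 g ξ‖ₑ ^ 4 = ∫⁻ h, ‖BR g h‖ₑ ^ 2 := by
  rw [← Pool.Agent.H153R4.plancherel _ (BR_int hg) (BR_memLp hg hB)]
  congr 1
  ext ξ
  rw [F_BR hg, enorm_mul]
  have : ‖conj (𝓕 g ξ)‖ₑ = ‖𝓕 g ξ‖ₑ := by
    rw [← ofReal_norm, ← ofReal_norm, RCLike.norm_conj]
  rw [this]
  ring

end

theorem t_FOUR1 : S_FOUR1 := by
  intro a b B g hm hB hs
  have hg := bs_int hm hB hs
  have h1 := fourR hg hB
  unfold BR at h1
  rw [← h1, ← lintegral_neg_eq_self]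
  refine lintegral_congr fun w => ?_
  congr 2
  rw [Real.fourier_eq']
  refine integral_congr_ae (ae_of_all _ fun r => ?_)
  simp only [smul_eq_mul]
  rw [mul_comm]
  congr 1
  unfold ee
  congr 1
  simp only [RCLike.inner_apply, conj_trivial]
  push_cast
  ring

end Pool.Agent.W305.SP
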